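import Mathlib

/-!
# Maximum Euler Sombor index of chemical unicyclic graphs

We determine, for every `n ≥ 3`, the maximum of the Euler Sombor index over chemical unicyclic
graphs with `n` vertices, together with all the extremal graphs.

Method: discharging / linear programming duality.  With `K = (2√21+√48)/3` and
`B = 4/3 (√21-√48)`, every edge with end degrees `i, j ≤ 4` satisfies
`√(i²+j²+ij) ≤ K + B (1/i+1/j-1)`, and the sum of the right-hand side over all edges is `K n`.
The slack of every edge is then shared between its ends.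
-/

set_option linter.unusedSectionVars false
set_option linter.unreachableTactic false
set_option linter.unusedTactic false
set_option linter.unusedSimpArgs false

namespace Pool.Agent.Results.MP_b3e27a_co.EulerSombor

open Finset

/-! ## Definitions used in the statement -/

/-- The edge weight `√(i² + j² + i j)`. -/
noncomputable def w (i j : ℕ) : ℝ := √((i : ℝ) ^ 2 + (j : ℝ) ^ 2 + (i : ℝ) * (j : ℝ))

theorem w_comm (i j : ℕ) : w i j = w j i := by
  unfold w
  congr 1
  ring

section defs

variable {V : Type*} [Fintype V] [DecidableEq V] (G : SimpleGraph V) [DecidableRel G.Adj]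

/-- The Euler Sombor index: the sum over the edges `uv` of
`√(deg(u)² + deg(v)² + deg(u) deg(v))`. -/
noncomputable def EUS : ℝ :=
  ∑ e ∈ G.edgeFinset,
    Sym2.lift ⟨fun u v => w (G.degree u) (G.degree v), fun _ _ => w_comm _ _⟩ e

/-- Chemical unicyclic graphs: connected, as many edges as vertices, maximum degree at most 4. -/
def ChemUnicyclic : Prop :=
  G.Connected ∧ #G.edgeFinset = Fintype.card V ∧ ∀ v, G.degree v ≤ 4

/-- `G` consists of a triangle `abc` with `deg a = p`, `deg b = q`, `deg c = r`, all other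
vertices being leaves. -/
def TriangleLeaves (p q r : ℕ) : Prop :=
  ∃ a b c : V, G.Adj a b ∧ G.Adj a c ∧ G.Adj b c ∧
    G.degree a = p ∧ G.degree b = q ∧ G.degree c = r ∧
    ∀ v, v ≠ a → v ≠ b → v ≠ c → G.degree v = 1

/-- All degrees are `1` or `4`, except for exactly one vertex, which has degree `d` and all of
whose neighbours have degree `4`. -/
def OneException (d : ℕ) : Prop :=
  ∃ x : V, G.degree x = d ∧ (∀ y, G.Adj x y → G.degree y = 4) ∧
    ∀ v, v ≠ x → (G.degree v = 1 ∨ G.degree v = 4)

/-- The description of the extremal graphs with `n` vertices. -/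
def Extremal (n : ℕ) : Prop :=
  if n = 3 then TriangleLeaves G 2 2 2
  else if n = 4 then TriangleLeaves G 3 2 2
  else if n = 5 then TriangleLeaves G 4 2 2
  else if n = 6 then TriangleLeaves G 4 3 2
  else if n = 8 then TriangleLeaves G 3 4 4
  else if n % 3 = 0 then ∀ v, G.degree v = 1 ∨ G.degree v = 4
  else if n % 3 = 1 then OneException G 2
  else OneException G 3

end defs

/-- The value of the maximum. -/
noncomputable def M (n : ℕ) : ℝ :=
  if n = 3 then 3 * √12
  else if n = 4 then √12 + √13 + 2 * √19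
  else if n = 5 then √12 + 2 * √21 + 2 * √28
  else if n = 6 then √13 + √19 + 2 * √21 + √28 + √37
  else if n = 8 then √13 + 4 * √21 + 2 * √37 + √48
  else if n % 3 = 0 then 2 * n / 3 * √21 + n / 3 * √48
  else if n % 3 = 1 then 2 * √28 + 2 * (n - 1) / 3 * √21 + (n - 4) / 3 * √48
  else 3 * √37 + (2 * n - 1) / 3 * √21 + (n - 8) / 3 * √48

/-! ## Numerical facts -/

theorem b3 : (1.732 : ℝ) < √3 ∧ √3 < 1.7321 :=
  ⟨(Real.lt_sqrt (by norm_num)).2 (by norm_num), (Real.sqrt_lt' (by norm_num)).2 (by norm_num)⟩
theorem b7 : (2.6457 : ℝ) < √7 ∧ √7 < 2.6458 :=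
  ⟨(Real.lt_sqrt (by norm_num)).2 (by norm_num), (Real.sqrt_lt' (by norm_num)).2 (by norm_num)⟩
theorem b12 : (3.4641 : ℝ) < √12 ∧ √12 < 3.4642 :=
  ⟨(Real.lt_sqrt (by norm_num)).2 (by norm_num), (Real.sqrt_lt' (by norm_num)).2 (by norm_num)⟩
theorem b13 : (3.6055 : ℝ) < √13 ∧ √13 < 3.6056 :=
  ⟨(Real.lt_sqrt (by norm_num)).2 (by norm_num), (Real.sqrt_lt' (by norm_num)).2 (by norm_num)⟩
theorem b19 : (4.3588 : ℝ) < √19 ∧ √19 < 4.3589 :=
  ⟨(Real.lt_sqrt (by norm_num)).2 (by norm_num), (Real.sqrt_lt' (by norm_num)).2 (by norm_num)⟩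
theorem b21 : (4.5825 : ℝ) < √21 ∧ √21 < 4.5826 :=
  ⟨(Real.lt_sqrt (by norm_num)).2 (by norm_num), (Real.sqrt_lt' (by norm_num)).2 (by norm_num)⟩
theorem b27 : (5.1961 : ℝ) < √27 ∧ √27 < 5.1962 :=
  ⟨(Real.lt_sqrt (by norm_num)).2 (by norm_num), (Real.sqrt_lt' (by norm_num)).2 (by norm_num)⟩
theorem b28 : (5.2915 : ℝ) < √28 ∧ √28 < 5.2916 :=
  ⟨(Real.lt_sqrt (by norm_num)).2 (by norm_num), (Real.sqrt_lt' (by norm_num)).2 (by norm_num)⟩
theorem b37 : (6.0827 : ℝ) < √37 ∧ √37 < 6.0828 :=
  ⟨(Real.lt_sqrt (by norm_num)).2 (by norm_num), (Real.sqrt_lt' (by norm_num)).2 (by norm_num)⟩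
theorem b48 : (6.9282 : ℝ) < √48 ∧ √48 < 6.9283 :=
  ⟨(Real.lt_sqrt (by norm_num)).2 (by norm_num), (Real.sqrt_lt' (by norm_num)).2 (by norm_num)⟩

/-- The linear programming dual values. -/
noncomputable def K : ℝ := (2 * √21 + √48) / 3
noncomputable def B : ℝ := 4 / 3 * (√21 - √48)

/-- Slack of an edge with end degrees `i`, `j`. -/
noncomputable def sl (i j : ℕ) : ℝ := K + B * (1 / (i : ℝ) + 1 / (j : ℝ) - 1) - w i j

theorem sl_comm (i j : ℕ) : sl i j = sl j i := by
  unfold sl
  rw [w_comm i j]
  ring

/-- The share of the slack given to the end of degree `i`. -/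
noncomputable def share (i j : ℕ) : ℝ :=
  if i = 1 ∨ i = 4 then (if j = 1 ∨ j = 4 then sl i j / 2 else 0)
  else (if j = 1 ∨ j = 4 then sl i j else sl i j / 2)

theorem share_add (i j : ℕ) : share i j + share j i = sl i j := by
  unfold share
  rw [sl_comm j i]
  split_ifs <;> ring

theorem s11 : share 1 1 = (K + B - √3) / 2 := by
  norm_num [share, sl, w]
theorem s12 : share 1 2 = 0 := by
  norm_num [share, sl, w]
theorem s13 : share 1 3 = 0 := by
  norm_num [share, sl, w]
theorem s14 : share 1 4 = 0 := by
  norm_num [share, sl, w, K, B]; ring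
theorem s41 : share 4 1 = 0 := by
  norm_num [share, sl, w, K, B]; ring
theorem s42 : share 4 2 = 0 := by
  norm_num [share, sl, w]
theorem s43 : share 4 3 = 0 := by
  norm_num [share, sl, w]
theorem s44 : share 4 4 = 0 := by
  norm_num [share, sl, w, K, B]; ring
theorem s21 : share 2 1 = K + B / 2 - √7 := by
  norm_num [share, sl, w]; ring
theorem s22 : share 2 2 = (K - √12) / 2 := by
  norm_num [share, sl, w]
theorem s23 : share 2 3 = (K - B / 6 - √19) / 2 := by
  norm_num [share, sl, w]; ring
theorem s24 : share 2 4 = K - B / 4 - √28 := by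
  norm_num [share, sl, w]; ring
theorem s31 : share 3 1 = K + B / 3 - √13 := by
  norm_num [share, sl, w]; ring
theorem s32 : share 3 2 = (K - B / 6 - √19) / 2 := by
  norm_num [share, sl, w]; ring
theorem s33 : share 3 3 = (K - B / 3 - √27) / 2 := by
  norm_num [share, sl, w]; ring
theorem s34 : share 3 4 = K - 5 / 12 * B - √37 := by
  norm_num [share, sl, w]; ring


/-! ## Graph-theoretic part -/

section graph

variable {V : Type*} [Fintype V] [DecidableEq V] {G : SimpleGraph V} [DecidableRel G.Adj]

theorem sum_swap (ψ : V → V → ℝ) :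
    ∑ v, ∑ u ∈ G.neighborFinset v, ψ v u = ∑ v, ∑ u ∈ G.neighborFinset v, ψ u v := by
  rw [Finset.sum_comm' (s' := fun u => G.neighborFinset u) (t' := univ)]
  intro x y
  simp [G.adj_comm]

theorem sum_edges (φ : V → V → ℝ) (hφ : ∀ u v, φ u v = φ v u) :
    ∑ v, ∑ u ∈ G.neighborFinset v, φ v u
      = 2 * ∑ e ∈ G.edgeFinset, Sym2.lift ⟨φ, hφ⟩ e := by
  have h1 : ∑ v, ∑ u ∈ G.neighborFinset v, φ v u
      = ∑ p ∈ (univ : Finset (V × V)).filter (fun p => G.Adj p.1 p.2), φ p.1 p.2 := by
    rw [sum_filter, ← univ_product_univ, sum_product]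
    apply sum_congr rfl
    intro v _
    rw [← sum_filter]
    apply sum_congr _ (fun _ _ => rfl)
    ext u
    simp
  rw [h1, mul_sum]
  rw [← sum_fiberwise_of_maps_to (s := (univ : Finset (V × V)).filter (fun p => G.Adj p.1 p.2))
    (t := G.edgeFinset) (g := fun p => s(p.1, p.2)) (by
      intro p hp
      simpa using hp)]
  apply sum_congr rfl
  intro e he
  induction e using Sym2.ind with
  | _ a b =>
    rw [SimpleGraph.mem_edgeFinset, SimpleGraph.mem_edgeSet] at he
    have h2 : ((univ : Finset (V × V)).filter (fun p => G.Adj p.1 p.2)).filter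
        (fun p => s(p.1, p.2) = s(a, b)) = {(a, b), (b, a)} := by
      ext ⟨x, y⟩
      simp only [mem_filter, mem_univ, true_and, mem_insert, mem_singleton, Prod.mk.injEq,
        Sym2.eq_iff]
      constructor
      · rintro ⟨_, h | h⟩
        · exact Or.inl h
        · exact Or.inr h
      · rintro (⟨rfl, rfl⟩ | ⟨rfl, rfl⟩)
        · exact ⟨he, Or.inl ⟨rfl, rfl⟩⟩
        · exact ⟨he.symm, Or.inr ⟨rfl, rfl⟩⟩
    rw [h2, sum_pair (by
      intro h
      rw [Prod.mk.injEq] at h
      exact he.ne h.1)]
    simp only [Sym2.lift_mk]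
    rw [hφ b a]
    ring

/-- Charge of a vertex. -/
noncomputable def F (G : SimpleGraph V) [DecidableRel G.Adj] (v : V) : ℝ :=
  ∑ u ∈ G.neighborFinset v, share (G.degree v) (G.degree u)

theorem sum_one : (∑ v, ∑ _u ∈ G.neighborFinset v, (1 : ℝ)) = 2 * (#G.edgeFinset : ℝ) := by
  have h := G.sum_degrees_eq_twice_card_edges
  have h2 : (∑ v, (G.degree v : ℝ)) = 2 * (#G.edgeFinset : ℝ) := by exact_mod_cast h
  rw [← h2]
  apply sum_congr rfl
  intro v _
  simp

theorem sum_inv (hpos : ∀ v, 1 ≤ G.degree v) :
    (∑ v, ∑ _u ∈ G.neighborFinset v, 1 / (G.degree v : ℝ)) = Fintype.card V := by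
  have : ∀ v ∈ (univ : Finset V), (∑ _u ∈ G.neighborFinset v, 1 / (G.degree v : ℝ)) = 1 := by
    intro v _
    rw [sum_const, G.card_neighborFinset_eq_degree, nsmul_eq_mul]
    have h : (1 : ℝ) ≤ G.degree v := by exact_mod_cast hpos v
    field_simp
  rw [sum_congr rfl this]
  simp

theorem main_identity (hpos : ∀ v, 1 ≤ G.degree v) (hcard : #G.edgeFinset = Fintype.card V) :
    ∑ v, F G v = K * (Fintype.card V : ℝ) - EUS G := by
  have h1 := sum_edges (G := G) (fun u v => w (G.degree u) (G.degree v)) (fun _ _ => w_comm _ _)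
  have h2 := sum_swap (G := G) (fun v u => share (G.degree v) (G.degree u))
  have h3 := sum_inv hpos
  have h4 := sum_swap (G := G) (fun v _ => 1 / (G.degree v : ℝ))
  have h5 := sum_one (G := G)
  have h6 : ∑ v, ∑ u ∈ G.neighborFinset v, (share (G.degree v) (G.degree u) +
      share (G.degree u) (G.degree v)) =
      ∑ v, ∑ u ∈ G.neighborFinset v, ((K - B) * 1 + B * (1 / (G.degree v : ℝ)) +
        B * (1 / (G.degree u : ℝ)) - w (G.degree v) (G.degree u)) := by
    apply sum_congr rfl
    intro v _
    apply sum_congr rfl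
    intro u _
    rw [share_add]
    unfold sl
    ring
  simp only [sum_add_distrib, sum_sub_distrib, ← mul_sum] at h6
  rw [h1] at h6
  unfold F EUS
  rw [hcard] at h5
  rw [h5] at h6
  rw [← h4, h3] at h6
  linarith

theorem deg_pos (hc : G.Connected) (hn : 3 ≤ Fintype.card V) (v : V) : 1 ≤ G.degree v := by
  have : Nontrivial V := Fintype.one_lt_card_iff_nontrivial.1 (by omega)
  exact hc.preconnected.degree_pos_of_nontrivial v

theorem unique_nbr {u v x : V} (hu : G.degree u = 1) (hv : G.Adj u v) (hx : G.Adj u x) :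
    x = v := by
  rw [← G.card_neighborFinset_eq_degree, card_eq_one] at hu
  obtain ⟨a, ha⟩ := hu
  have h1 : v ∈ G.neighborFinset u := by simpa using hv
  have h2 : x ∈ G.neighborFinset u := by simpa using hx
  rw [ha, mem_singleton] at h1 h2
  rw [h1, h2]

theorem not_adj_leaves (hc : G.Connected) (hn : 3 ≤ Fintype.card V) {u v : V}
    (hu : G.degree u = 1) (hv : G.degree v = 1) : ¬ G.Adj u v := by
  intro h
  have hall : ∀ x, x = u ∨ x = v := by
    intro x
    have hr := (G.reachable_iff_reflTransGen u x).1 (hc.preconnected u x)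
    induction hr with
    | refl => exact Or.inl rfl
    | tail _ hab ih =>
      rcases ih with rfl | rfl
      · exact Or.inr (unique_nbr hu h hab)
      · exact Or.inl (unique_nbr hv h.symm hab)
  have h2 : (univ : Finset V) ⊆ {u, v} := by
    intro x _
    simpa using hall x
  have h3 := card_le_card h2
  have h4 := card_le_two (a := u) (b := v)
  rw [card_univ] at h3
  omega

/-- The set of non-leaves. -/
def S (G : SimpleGraph V) [DecidableRel G.Adj] : Finset V := univ.filter (fun v => G.degree v ≠ 1)

theorem mem_S {v : V} : v ∈ S G ↔ G.degree v ≠ 1 := by simp [S]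

theorem core (hc : G.Connected) (hn : 3 ≤ Fintype.card V)
    (hcard : #G.edgeFinset = Fintype.card V) :
    ∑ v ∈ S G, #(G.neighborFinset v ∩ S G) = 2 * #(S G) := by
  have h5 := sum_one (G := G)
  have key : ∑ v, ∑ u ∈ G.neighborFinset v, (1 : ℝ) =
      ∑ v, ∑ u ∈ G.neighborFinset v,
        ((if G.degree v ≠ 1 ∧ G.degree u ≠ 1 then (1 : ℝ) else 0) +
          (if G.degree v = 1 then (1 : ℝ) else 0) + (if G.degree u = 1 then (1 : ℝ) else 0)) := by
    apply sum_congr rfl
    intro v _
    apply sum_congr rfl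
    intro u hu
    rw [SimpleGraph.mem_neighborFinset] at hu
    by_cases h1 : G.degree v = 1
    · by_cases h2 : G.degree u = 1
      · exact absurd hu (not_adj_leaves hc hn h1 h2)
      · simp [h1, h2]
    · by_cases h2 : G.degree u = 1
      · simp [h1, h2]
      · simp [h1, h2]
  have hL : ∑ v, ∑ u ∈ G.neighborFinset v, (if G.degree v = 1 then (1 : ℝ) else 0) =
      (#(univ.filter (fun v => G.degree v = 1)) : ℝ) := by
    rw [card_filter]
    push_cast
    apply sum_congr rfl
    intro v _
    rw [sum_const, G.card_neighborFinset_eq_degree, nsmul_eq_mul]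
    by_cases h1 : G.degree v = 1
    · simp [h1]
    · simp [h1]
  have hL2 := sum_swap (G := G) (fun v _ => (if G.degree v = 1 then (1 : ℝ) else 0))
  have hS : ∑ v, ∑ u ∈ G.neighborFinset v,
        (if G.degree v ≠ 1 ∧ G.degree u ≠ 1 then (1 : ℝ) else 0) =
        ((∑ v ∈ S G, #(G.neighborFinset v ∩ S G) : ℕ) : ℝ) := by
    push_cast
    unfold S
    rw [sum_filter]
    apply sum_congr rfl
    intro v _
    by_cases h1 : G.degree v = 1
    · simp [h1]
    · simp only [h1, ne_eq, not_false_eq_true, true_and, if_true]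
      rw [← filter_mem_eq_inter, card_filter]
      push_cast
      apply sum_congr rfl
      intro u _
      simp
  have hn2 : #(univ.filter (fun v => G.degree v = 1)) + #(S G) = Fintype.card V := by
    unfold S
    rw [card_filter_add_card_filter_not, card_univ]
  simp only [sum_add_distrib] at key
  rw [h5, hS, hL, ← hL2, hL, hcard, ← hn2] at key
  have : ((∑ v ∈ S G, #(G.neighborFinset v ∩ S G) : ℕ) : ℝ) = ((2 * #(S G) : ℕ) : ℝ) := by
    push_cast at key ⊢
    linarith
  exact_mod_cast this

theorem inter_sub (v : V) : G.neighborFinset v ∩ S G ⊆ (S G).erase v := by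
  intro u hu
  rw [mem_inter, SimpleGraph.mem_neighborFinset] at hu
  exact mem_erase.2 ⟨hu.1.ne', hu.2⟩

theorem three_le (hc : G.Connected) (hn : 3 ≤ Fintype.card V)
    (hcard : #G.edgeFinset = Fintype.card V) : 3 ≤ #(S G) := by
  by_contra hlt
  push Not at hlt
  have h := core hc hn hcard
  have h1 : ∑ v ∈ S G, #(G.neighborFinset v ∩ S G) ≤ ∑ v ∈ S G, 1 := by
    apply sum_le_sum
    intro v hv
    have := card_le_card (inter_sub (G := G) v)
    rw [card_erase_of_mem hv] at this
    omega
  rw [h, sum_const, smul_eq_mul] at h1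
  have h2 : #(S G) = 0 := by omega
  rw [card_eq_zero] at h2
  have hall : ∀ v, G.degree v = 1 := by
    intro v
    by_contra hv
    have := mem_S.2 hv
    rw [h2] at this
    simp at this
  obtain ⟨v⟩ : Nonempty V := Fintype.card_pos_iff.1 (by omega)
  have hv := deg_pos hc hn v
  rw [Nat.succ_le_iff, G.degree_pos_iff_exists_adj] at hv
  obtain ⟨u, hu⟩ := hv
  exact not_adj_leaves hc hn (hall v) (hall u) hu

theorem adj_of_three (hc : G.Connected) (hn : 3 ≤ Fintype.card V)
    (hcard : #G.edgeFinset = Fintype.card V) (h3 : #(S G) = 3) {u v : V}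
    (hu : G.degree u ≠ 1) (hv : G.degree v ≠ 1) (huv : u ≠ v) : G.Adj u v := by
  have h := core hc hn hcard
  have h1 : ∀ v ∈ S G, #(G.neighborFinset v ∩ S G) ≤ 2 := by
    intro v hv
    have := card_le_card (inter_sub (G := G) v)
    rw [card_erase_of_mem hv] at this
    omega
  have h2 : ∑ v ∈ S G, #(G.neighborFinset v ∩ S G) = ∑ v ∈ S G, 2 := by
    rw [h, sum_const, smul_eq_mul]
    ring
  rw [sum_eq_sum_iff_of_le h1] at h2
  have h4 := h2 u (mem_S.2 hu)
  have h5 : G.neighborFinset u ∩ S G = (S G).erase u := by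
    apply eq_of_subset_of_card_le (inter_sub u)
    rw [h4, card_erase_of_mem (mem_S.2 hu)]
    omega
  have h6 : v ∈ G.neighborFinset u ∩ S G := by
    rw [h5]
    exact mem_erase.2 ⟨huv.symm, mem_S.2 hv⟩
  rw [mem_inter, SimpleGraph.mem_neighborFinset] at h6
  exact h6.1

/-! ### Charges -/

theorem F_leaf (hc : G.Connected) (hn : 3 ≤ Fintype.card V) (hd : ∀ v, G.degree v ≤ 4) {v : V}
    (hv : G.degree v = 1) : F G v = 0 := by
  unfold F
  apply sum_eq_zero
  intro u hu
  rw [SimpleGraph.mem_neighborFinset] at hu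
  have h1 : G.degree u ≠ 1 := fun h => not_adj_leaves hc hn hv h hu
  have h2 := hd u
  have h3 := deg_pos hc hn u
  rw [hv]
  have h4 : G.degree u = 2 ∨ G.degree u = 3 ∨ G.degree u = 4 := by omega
  rcases h4 with h | h | h
  · rw [h, s12]
  · rw [h, s13]
  · rw [h, s14]

theorem F_four (hpos : ∀ v, 1 ≤ G.degree v) (hd : ∀ v, G.degree v ≤ 4) {v : V}
    (hv : G.degree v = 4) : F G v = 0 := by
  unfold F
  apply sum_eq_zero
  intro u _
  have h2 := hd u
  have h3 := hpos u
  rw [hv]
  have h4 : G.degree u = 1 ∨ G.degree u = 2 ∨ G.degree u = 3 ∨ G.degree u = 4 := by omega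
  rcases h4 with h | h | h | h
  · rw [h, s41]
  · rw [h, s42]
  · rw [h, s43]
  · rw [h, s44]

theorem F_ge {v : V} {c : ℝ} (h : ∀ u, G.Adj v u → c ≤ share (G.degree v) (G.degree u)) :
    (G.degree v : ℝ) * c ≤ F G v := by
  unfold F
  have := card_nsmul_le_sum (G.neighborFinset v) (fun u => share (G.degree v) (G.degree u)) c
    (fun u hu => h u (by simpa using hu))
  rwa [G.card_neighborFinset_eq_degree, nsmul_eq_mul] at this

theorem F_gt {v : V} {c : ℝ} (h : ∀ u, G.Adj v u → c ≤ share (G.degree v) (G.degree u))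
    (h2 : ∃ u, G.Adj v u ∧ c < share (G.degree v) (G.degree u)) :
    (G.degree v : ℝ) * c < F G v := by
  unfold F
  have : ∑ u ∈ G.neighborFinset v, c < ∑ u ∈ G.neighborFinset v,
      share (G.degree v) (G.degree u) := by
    apply sum_lt_sum
    · intro u hu
      exact h u (by simpa using hu)
    · obtain ⟨u, hu1, hu2⟩ := h2
      exact ⟨u, by simpa using hu1, hu2⟩
  rwa [sum_const, G.card_neighborFinset_eq_degree, nsmul_eq_mul] at this

theorem share2_ge {j : ℕ} (h1 : 1 ≤ j) (h2 : j ≤ 4) : 0.76 ≤ share 2 j := by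
  have := b7; have := b12; have := b19; have := b21; have := b28; have := b48
  have h4 : j = 1 ∨ j = 2 ∨ j = 3 ∨ j = 4 := by omega
  rcases h4 with rfl | rfl | rfl | rfl
  · rw [s21]; unfold K B; linarith
  · rw [s22]; unfold K; linarith
  · rw [s23]; unfold K B; linarith
  · rw [s24]; unfold K B; linarith

theorem share34_num : 0.584 ≤ share 3 4 := by
  have := b21; have := b37; have := b48
  rw [s34]; unfold K B; linarith

theorem share3_ge {j : ℕ} (h1 : 1 ≤ j) (h2 : j ≤ 4) : share 3 4 ≤ share 3 j := by
  have := b13; have := b19; have := b21; have := b27; have := b37; have := b48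
  have h4 : j = 1 ∨ j = 2 ∨ j = 3 ∨ j = 4 := by omega
  rcases h4 with rfl | rfl | rfl | rfl
  · rw [s31, s34]; unfold K B; linarith
  · rw [s32, s34]; unfold K B; linarith
  · rw [s33, s34]; unfold K B; linarith
  · exact le_rfl

theorem share3_gt {j : ℕ} (h1 : 1 ≤ j) (h2 : j ≤ 4) (h3 : j ≠ 4) : share 3 4 < share 3 j := by
  have := b13; have := b19; have := b21; have := b27; have := b37; have := b48
  have h4 : j = 1 ∨ j = 2 ∨ j = 3 := by omega
  rcases h4 with rfl | rfl | rfl
  · rw [s31, s34]; unfold K B; linarith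
  · rw [s32, s34]; unfold K B; linarith
  · rw [s33, s34]; unfold K B; linarith

theorem share21_gt : share 2 4 < share 2 1 := by
  have := b7; have := b21; have := b28; have := b48
  rw [s21, s24]; unfold K B; linarith

theorem F_ge' (hc : G.Connected) (hn : 3 ≤ Fintype.card V) (hd : ∀ v, G.degree v ≤ 4) (v : V) :
    1.52 * (if G.degree v = 2 then (1 : ℝ) else 0) +
      1.752 * (if G.degree v = 3 then (1 : ℝ) else 0) ≤ F G v := by
  have h2 := hd v
  have h3 := deg_pos hc hn v
  have h4 : G.degree v = 1 ∨ G.degree v = 2 ∨ G.degree v = 3 ∨ G.degree v = 4 := by omega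
  rcases h4 with h | h | h | h
  · rw [F_leaf hc hn hd h, h]; norm_num
  · have := F_ge (G := G) (v := v) (c := 0.76) (fun u _ => by
      rw [h]; exact share2_ge (deg_pos hc hn u) (hd u))
    rw [h] at this ⊢
    norm_num at this ⊢
    linarith
  · have := F_ge (G := G) (v := v) (c := 0.584) (fun u _ => by
      rw [h]; exact share34_num.trans (share3_ge (deg_pos hc hn u) (hd u)))
    rw [h] at this ⊢
    norm_num at this ⊢
    linarith
  · rw [F_four (deg_pos hc hn) hd h, h]; norm_num

/-- Number of vertices of degree `i`. -/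
def N (G : SimpleGraph V) [DecidableRel G.Adj] (i : ℕ) : ℕ := #(univ.filter (fun v => G.degree v = i))

theorem sum_F_ge (hc : G.Connected) (hn : 3 ≤ Fintype.card V) (hd : ∀ v, G.degree v ≤ 4) :
    1.52 * (N G 2 : ℝ) + 1.752 * (N G 3 : ℝ) ≤ ∑ v, F G v := by
  have h := sum_le_sum (fun v (_ : v ∈ (univ : Finset V)) => F_ge' hc hn hd v)
  rw [sum_add_distrib, ← mul_sum, ← mul_sum] at h
  simp only [sum_boole] at h
  exact h

theorem count (hc : G.Connected) (hn : 3 ≤ Fintype.card V) (hd : ∀ v, G.degree v ≤ 4)
    (hcard : #G.edgeFinset = Fintype.card V) :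
    N G 2 + 2 * N G 3 + 3 * N G 4 = Fintype.card V := by
  have h := G.sum_degrees_eq_twice_card_edges
  rw [hcard] at h
  have h2 : ∑ v, G.degree v = ∑ v : V, (1 + (if G.degree v = 2 then 1 else 0) +
      2 * (if G.degree v = 3 then 1 else 0) + 3 * (if G.degree v = 4 then 1 else 0)) := by
    apply sum_congr rfl
    intro v _
    have h2 := hd v
    have h3 := deg_pos hc hn v
    have h4 : G.degree v = 1 ∨ G.degree v = 2 ∨ G.degree v = 3 ∨ G.degree v = 4 := by omega
    rcases h4 with h | h | h | h <;> rw [h] <;> simp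
  rw [h2] at h
  simp only [sum_add_distrib, ← mul_sum, sum_boole, sum_const, card_univ, smul_eq_mul,
    Nat.cast_id] at h
  unfold N
  omega

theorem card_S (hc : G.Connected) (hn : 3 ≤ Fintype.card V) (hd : ∀ v, G.degree v ≤ 4) :
    #(S G) = N G 2 + N G 3 + N G 4 := by
  unfold S N
  simp only [card_filter]
  rw [← sum_add_distrib, ← sum_add_distrib]
  apply sum_congr rfl
  intro v _
  have h2 := hd v
  have h3 := deg_pos hc hn v
  have h4 : G.degree v = 1 ∨ G.degree v = 2 ∨ G.degree v = 3 ∨ G.degree v = 4 := by omega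
  rcases h4 with h | h | h | h <;> rw [h] <;> simp

theorem F_tri {a b c : V} (hab : G.Adj a b) (hac : G.Adj a c) (hbc : b ≠ c)
    (hrest : ∀ v, v ≠ a → v ≠ b → v ≠ c → G.degree v = 1) :
    F G a = share (G.degree a) (G.degree b) + share (G.degree a) (G.degree c) +
      ((G.degree a : ℝ) - 2) * share (G.degree a) 1 := by
  unfold F
  have hb : b ∈ G.neighborFinset a := by simpa using hab
  have hc : c ∈ (G.neighborFinset a).erase b := mem_erase.2 ⟨hbc.symm, by simpa using hac⟩
  rw [← add_sum_erase _ _ hb, ← add_sum_erase _ _ hc]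
  have h1 : ∑ x ∈ ((G.neighborFinset a).erase b).erase c, share (G.degree a) (G.degree x) =
      ∑ x ∈ ((G.neighborFinset a).erase b).erase c, share (G.degree a) 1 := by
    apply sum_congr rfl
    intro x hx
    rw [mem_erase, mem_erase, SimpleGraph.mem_neighborFinset] at hx
    rw [hrest x hx.2.2.ne' hx.2.1 hx.1]
  have h2 : #(((G.neighborFinset a).erase b).erase c) + 2 = G.degree a := by
    rw [← G.card_neighborFinset_eq_degree, ← card_erase_add_one hb, ← card_erase_add_one hc]
  have h3 : (#(((G.neighborFinset a).erase b).erase c) : ℝ) = (G.degree a : ℝ) - 2 := by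
    rw [← h2]
    push_cast
    ring
  rw [h1, sum_const, nsmul_eq_mul, h3]
  ring

theorem tri_sum (hc : G.Connected) (hn : 3 ≤ Fintype.card V) (hd : ∀ v, G.degree v ≤ 4)
    {p q r : ℕ} (h : TriangleLeaves G p q r) :
    ∑ v, F G v = (share p q + share p r + ((p : ℝ) - 2) * share p 1) +
      (share q p + share q r + ((q : ℝ) - 2) * share q 1) +
      (share r p + share r q + ((r : ℝ) - 2) * share r 1) := by
  obtain ⟨a, b, c, hab, hac, hbc, ha, hb, hcc, hrest⟩ := h
  have h1 : ∑ v, F G v = ∑ v ∈ ({a, b, c} : Finset V), F G v := by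
    symm
    apply sum_subset (subset_univ _)
    intro v _ hv
    simp only [mem_insert, mem_singleton, not_or] at hv
    exact F_leaf hc hn hd (hrest v hv.1 hv.2.1 hv.2.2)
  rw [h1, sum_insert (by simp [hab.ne, hac.ne]), sum_insert (by simp [hbc.ne]), sum_singleton]
  rw [F_tri hab hac hbc.ne hrest, F_tri hab.symm hbc hac.ne (fun v h1 h2 h3 => hrest v h2 h1 h3),
    F_tri hac.symm hbc.symm hab.ne (fun v h1 h2 h3 => hrest v h2 h3 h1), ha, hb, hcc]
  ring

theorem tri_of (hc : G.Connected) (hn : 3 ≤ Fintype.card V)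
    (hcard : #G.edgeFinset = Fintype.card V) (hS : #(S G) = 3) {a b c : V} (hab : a ≠ b)
    (hac : a ≠ c) (hbc : b ≠ c) (ha : G.degree a ≠ 1) (hb : G.degree b ≠ 1)
    (hcc : G.degree c ≠ 1) : TriangleLeaves G (G.degree a) (G.degree b) (G.degree c) := by
  refine ⟨a, b, c, adj_of_three hc hn hcard hS ha hb hab, adj_of_three hc hn hcard hS ha hcc hac,
    adj_of_three hc hn hcard hS hb hcc hbc, rfl, rfl, rfl, ?_⟩
  intro v h1 h2 h3
  by_contra hv
  have h4 : ({v, a, b, c} : Finset V) ⊆ S G := by
    intro x hx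
    simp only [mem_insert, mem_singleton] at hx
    rw [mem_S]
    rcases hx with rfl | rfl | rfl | rfl <;> assumption
  have h5 := card_le_card h4
  rw [card_insert_of_notMem (by simp [h1, h2, h3]), card_insert_of_notMem (by simp [hab, hac]),
    card_insert_of_notMem (by simp [hbc]), card_singleton] at h5
  omega

theorem N_one {i : ℕ} (h : N G i = 1) : ∃ a, G.degree a = i ∧ ∀ v, G.degree v = i → v = a := by
  unfold N at h
  rw [card_eq_one] at h
  obtain ⟨a, ha⟩ := h
  have h1 : ∀ v, G.degree v = i ↔ v = a := by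
    intro v
    have : v ∈ univ.filter (fun v => G.degree v = i) ↔ v ∈ ({a} : Finset V) := by rw [ha]
    simpa using this
  exact ⟨a, (h1 a).2 rfl, fun v hv => (h1 v).1 hv⟩

theorem N_two {i : ℕ} (h : N G i = 2) : ∃ a b, a ≠ b ∧ G.degree a = i ∧ G.degree b = i := by
  unfold N at h
  rw [card_eq_two] at h
  obtain ⟨a, b, hab, ha⟩ := h
  have h1 : ∀ v, G.degree v = i ↔ v = a ∨ v = b := by
    intro v
    have : v ∈ univ.filter (fun v => G.degree v = i) ↔ v ∈ ({a, b} : Finset V) := by rw [ha]
    simpa using this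
  exact ⟨a, b, hab, (h1 a).2 (Or.inl rfl), (h1 b).2 (Or.inr rfl)⟩

theorem N_three {i : ℕ} (h : N G i = 3) :
    ∃ a b c, a ≠ b ∧ a ≠ c ∧ b ≠ c ∧ G.degree a = i ∧ G.degree b = i ∧ G.degree c = i := by
  unfold N at h
  rw [card_eq_three] at h
  obtain ⟨a, b, c, hab, hac, hbc, ha⟩ := h
  have h1 : ∀ v, G.degree v = i ↔ v = a ∨ v = b ∨ v = c := by
    intro v
    have : v ∈ univ.filter (fun v => G.degree v = i) ↔ v ∈ ({a, b, c} : Finset V) := by rw [ha]
    simpa using this
  exact ⟨a, b, c, hab, hac, hbc, (h1 a).2 (Or.inl rfl), (h1 b).2 (Or.inr (Or.inl rfl)),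
    (h1 c).2 (Or.inr (Or.inr rfl))⟩

theorem N_zero {i : ℕ} (h : N G i = 0) (v : V) : G.degree v ≠ i := by
  unfold N at h
  rw [card_eq_zero, filter_eq_empty_iff] at h
  exact h (mem_univ v)

theorem F_exc {d : ℕ} {x : V} (hx : G.degree x = d) (hy : ∀ y, G.Adj x y → G.degree y = 4) :
    F G x = d * share d 4 := by
  unfold F
  have : ∑ u ∈ G.neighborFinset x, share (G.degree x) (G.degree u) =
      ∑ u ∈ G.neighborFinset x, share d 4 := by
    apply sum_congr rfl
    intro u hu
    rw [hx, hy u (by simpa using hu)]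
  rw [this, sum_const, G.card_neighborFinset_eq_degree, nsmul_eq_mul, hx]

theorem exc_sum (hc : G.Connected) (hn : 3 ≤ Fintype.card V) (hd : ∀ v, G.degree v ≤ 4) {x : V}
    (h : ∀ v, v ≠ x → (G.degree v = 1 ∨ G.degree v = 4)) : ∑ v, F G v = F G x := by
  apply sum_eq_single x
  · intro v _ hv
    rcases h v hv with h | h
    · exact F_leaf hc hn hd h
    · exact F_four (deg_pos hc hn) hd h
  · intro h
    exact absurd (mem_univ x) h

theorem upper (h : ChemUnicyclic G) (hn : 3 ≤ Fintype.card V) :
    EUS G ≤ M (Fintype.card V) ∧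
      (EUS G = M (Fintype.card V) ↔ Extremal G (Fintype.card V)) := by
  obtain ⟨hc, hcard, hd⟩ := h
  have hid := main_identity (deg_pos hc hn) hcard
  have hge := sum_F_ge hc hn hd
  have hcnt := count hc hn hd hcard
  have hS := card_S hc hn hd
  have h3 := three_le hc hn hcard
  have hpos := deg_pos hc hn
  have htri := @tri_sum V _ _ G _ hc hn hd
  have htof := @tri_of V _ _ G _ hc hn hcard
  have hexc := @exc_sum V _ _ G _ hc hn hd
  obtain ⟨n, hV⟩ : ∃ n, Fintype.card V = n := ⟨_, rfl⟩
  rw [hV] at hid hcnt hn ⊢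
  suffices H : (Extremal G n → ∑ v, F G v = K * n - M n) ∧
      (¬ Extremal G n → K * n - M n < ∑ v, F G v) by
    by_cases hE : Extremal G n
    · have := H.1 hE
      have h5 : EUS G = M n := by linarith
      exact ⟨h5.le, fun _ => hE, fun _ => h5⟩
    · have := H.2 hE
      have h5 : EUS G < M n := by linarith
      exact ⟨h5.le, fun h => absurd h h5.ne, fun h => absurd h hE⟩
  have c12 := b12; have c13 := b13; have c19 := b19; have c21 := b21; have c27 := b27
  have c28 := b28; have c37 := b37; have c48 := b48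
  have p2 : (0 : ℝ) ≤ N G 2 := Nat.cast_nonneg _
  have p3 : (0 : ℝ) ≤ N G 3 := Nat.cast_nonneg _
  rw [hS] at htof h3
  unfold Extremal M
  split_ifs with e3 e4 e5 e6 e8 m0 m1
  · -- n = 3
    subst e3
    constructor
    · intro h
      rw [htri h]
      simp only [s22, s21]
      unfold K B
      push_cast
      ring
    · intro h
      exfalso
      apply h
      obtain ⟨a, b, c, hab, hac, hbc, ha, hb, hcc⟩ := N_three (G := G) (i := 2) (by omega)
      have := htof (by omega) hab hac hbc (by omega) (by omega) (by omega)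
      rwa [ha, hb, hcc] at this
  · -- n = 4
    subst e4
    constructor
    · intro h
      rw [htri h]
      simp only [s22, s21, s23, s32, s31]
      unfold K B
      push_cast
      ring
    · intro h
      by_cases hN : N G 2 = 2
      · exfalso
        apply h
        obtain ⟨b, c, hbc, hb, hcc⟩ := N_two hN
        obtain ⟨a, ha, _⟩ := N_one (G := G) (i := 3) (by omega)
        have := htof (a := a) (b := b) (c := c) (by omega) (by rintro rfl; omega)
          (by rintro rfl; omega) hbc (by omega) (by omega) (by omega)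
        rwa [ha, hb, hcc] at this
      · have h4 : 4 ≤ N G 2 := by omega
        have h4' : (4 : ℝ) ≤ N G 2 := by exact_mod_cast h4
        unfold K
        push_cast
        linarith
  · -- n = 5
    subst e5
    constructor
    · intro h
      rw [htri h]
      simp only [s22, s21, s24, s42, s41]
      unfold K B
      push_cast
      ring
    · intro h
      by_cases hN : N G 4 = 1
      · exfalso
        apply h
        obtain ⟨b, c, hbc, hb, hcc⟩ := N_two (G := G) (i := 2) (by omega)
        obtain ⟨a, ha, _⟩ := N_one hN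
        have := htof (a := a) (b := b) (c := c) (by omega) (by rintro rfl; omega)
          (by rintro rfl; omega) hbc (by omega) (by omega) (by omega)
        rwa [ha, hb, hcc] at this
      · have h4 : 3 ≤ N G 2 ∨ (1 ≤ N G 2 ∧ 2 ≤ N G 3) := by omega
        unfold K
        push_cast
        rcases h4 with h4 | ⟨h4, h5⟩
        · have h4' : (3 : ℝ) ≤ N G 2 := by exact_mod_cast h4
          linarith
        · have h4' : (1 : ℝ) ≤ N G 2 := by exact_mod_cast h4
          have h5' : (2 : ℝ) ≤ N G 3 := by exact_mod_cast h5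
          linarith
  · -- n = 6
    subst e6
    constructor
    · intro h
      rw [htri h]
      simp only [s21, s23, s24, s31, s32, s34, s42, s43, s41]
      unfold K B
      push_cast
      ring
    · intro h
      by_cases hN : N G 4 = 1 ∧ N G 3 = 1
      · exfalso
        apply h
        obtain ⟨a, ha, _⟩ := N_one hN.1
        obtain ⟨b, hb, _⟩ := N_one hN.2
        obtain ⟨c, hcc, _⟩ := N_one (G := G) (i := 2) (by omega)
        have := htof (a := a) (b := b) (c := c) (by omega) (by rintro rfl; omega)
          (by rintro rfl; omega) (by rintro rfl; omega) (by omega) (by omega) (by omega)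
        rwa [ha, hb, hcc] at this
      · have h4 : 3 ≤ N G 2 ∨ (2 ≤ N G 2 ∧ 2 ≤ N G 3) ∨ 3 ≤ N G 3 := by omega
        unfold K
        push_cast
        rcases h4 with h4 | ⟨h4, h5⟩ | h4
        · have h4' : (3 : ℝ) ≤ N G 2 := by exact_mod_cast h4
          linarith
        · have h4' : (2 : ℝ) ≤ N G 2 := by exact_mod_cast h4
          have h5' : (2 : ℝ) ≤ N G 3 := by exact_mod_cast h5
          linarith
        · have h4' : (3 : ℝ) ≤ N G 3 := by exact_mod_cast h4
          linarith
  · -- n = 8
    subst e8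
    constructor
    · intro h
      rw [htri h]
      simp only [s31, s34, s43, s44, s41]
      unfold K B
      push_cast
      ring
    · intro h
      by_cases hN : N G 4 = 2 ∧ N G 3 = 1
      · exfalso
        apply h
        obtain ⟨b, c, hbc, hb, hcc⟩ := N_two hN.1
        obtain ⟨a, ha, _⟩ := N_one hN.2
        have := htof (a := a) (b := b) (c := c) (by omega) (by rintro rfl; omega)
          (by rintro rfl; omega) hbc (by omega) (by omega) (by omega)
        rwa [ha, hb, hcc] at this
      · have h4 : 2 ≤ N G 2 ∨ 2 ≤ N G 3 := by omega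
        unfold K
        push_cast
        rcases h4 with h4 | h4
        · have h4' : (2 : ℝ) ≤ N G 2 := by exact_mod_cast h4
          linarith
        · have h4' : (2 : ℝ) ≤ N G 3 := by exact_mod_cast h4
          linarith
  · -- n = 0 mod 3
    have hT : K * (n : ℝ) - (2 * n / 3 * √21 + n / 3 * √48) = 0 := by
      unfold K
      ring
    rw [hT]
    constructor
    · intro h
      apply sum_eq_zero
      intro v _
      rcases h v with h | h
      · exact F_leaf hc (by omega) hd h
      · exact F_four hpos hd h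
    · intro h
      have h4 : 1 ≤ N G 2 ∨ 1 ≤ N G 3 := by
        by_contra hcon
        push Not at hcon
        apply h
        intro v
        have h5 := N_zero (G := G) (i := 2) (by omega) v
        have h6 := N_zero (G := G) (i := 3) (by omega) v
        have h7 := hpos v
        have h8 := hd v
        omega
      rcases h4 with h4 | h4
      · have h4' : (1 : ℝ) ≤ N G 2 := by exact_mod_cast h4
        linarith
      · have h4' : (1 : ℝ) ≤ N G 3 := by exact_mod_cast h4
        linarith
  · -- n = 1 mod 3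
    have hT : K * (n : ℝ) - (2 * √28 + 2 * (n - 1) / 3 * √21 + (n - 4) / 3 * √48) =
        (2 : ℝ) * share 2 4 := by
      rw [s24]
      unfold K B
      ring
    rw [hT]
    constructor
    · rintro ⟨x, hx, hy, hz⟩
      rw [hexc hz, F_exc hx hy]
      norm_num
    · intro h
      by_cases h4 : 2 ≤ N G 2 ∨ 1 ≤ N G 3
      · have hT2 : (2 : ℝ) * share 2 4 < 1.75 := by
          rw [s24]
          unfold K B
          linarith
        rcases h4 with h4 | h4
        · have h4' : (2 : ℝ) ≤ N G 2 := by exact_mod_cast h4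
          linarith
        · have h4' : (1 : ℝ) ≤ N G 3 := by exact_mod_cast h4
          linarith
      · obtain ⟨x, hx, hxu⟩ := N_one (G := G) (i := 2) (by omega)
        have hz : ∀ v, v ≠ x → (G.degree v = 1 ∨ G.degree v = 4) := by
          intro v hv
          have h5 : G.degree v ≠ 2 := fun h => hv (hxu v h)
          have h6 := N_zero (G := G) (i := 3) (by omega) v
          have h7 := hpos v
          have h8 := hd v
          omega
        have h5 : ∃ y, G.Adj x y ∧ G.degree y ≠ 4 := by
          by_contra hcon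
          push Not at hcon
          exact h ⟨x, hx, hcon, hz⟩
        rw [hexc hz]
        have h6 := F_gt (G := G) (v := x) (c := share 2 4) (by
          intro u hu
          rw [hx]
          rcases hz u hu.ne' with h | h
          · rw [h]; exact share21_gt.le
          · rw [h]) (by
          obtain ⟨y, hy1, hy2⟩ := h5
          refine ⟨y, hy1, ?_⟩
          rw [hx]
          rcases hz y hy1.ne' with h | h
          · rw [h]; exact share21_gt
          · exact absurd h hy2)
        rw [hx] at h6
        exact_mod_cast h6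
  · -- n = 2 mod 3
    have hT : K * (n : ℝ) - (3 * √37 + (2 * n - 1) / 3 * √21 + (n - 8) / 3 * √48) =
        (3 : ℝ) * share 3 4 := by
      rw [s34]
      unfold K B
      ring
    rw [hT]
    constructor
    · rintro ⟨x, hx, hy, hz⟩
      rw [hexc hz, F_exc hx hy]
      norm_num
    · intro h
      by_cases h4 : 2 ≤ N G 2 ∨ 2 ≤ N G 3
      · have hT2 : (3 : ℝ) * share 3 4 < 1.8 := by
          rw [s34]
          unfold K B
          linarith
        rcases h4 with h4 | h4
        · have h4' : (2 : ℝ) ≤ N G 2 := by exact_mod_cast h4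
          linarith
        · have h4' : (2 : ℝ) ≤ N G 3 := by exact_mod_cast h4
          linarith
      · obtain ⟨x, hx, hxu⟩ := N_one (G := G) (i := 3) (by omega)
        have hz : ∀ v, v ≠ x → (G.degree v = 1 ∨ G.degree v = 4) := by
          intro v hv
          have h5 : G.degree v ≠ 3 := fun h => hv (hxu v h)
          have h6 := N_zero (G := G) (i := 2) (by omega) v
          have h7 := hpos v
          have h8 := hd v
          omega
        have h5 : ∃ y, G.Adj x y ∧ G.degree y ≠ 4 := by
          by_contra hcon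
          push Not at hcon
          exact h ⟨x, hx, hcon, hz⟩
        rw [hexc hz]
        have h6 := F_gt (G := G) (v := x) (c := share 3 4) (by
          intro u hu
          rw [hx]
          exact share3_ge (hpos u) (hd u)) (by
          obtain ⟨y, hy1, hy2⟩ := h5
          refine ⟨y, hy1, ?_⟩
          rw [hx]
          exact share3_gt (hpos y) (hd y) hy2)
        rw [hx] at h6
        exact_mod_cast h6

end graph

/-! ## The extremal examples -/

/-- The graph of a function `f` on `{0, …, n-1}`: `u` is adjacent to `f u`. -/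
def FG (n : ℕ) (f : ℕ → ℕ) : SimpleGraph (Fin n) where
  Adj u v := u ≠ v ∧ (f u = v ∨ f v = u)
  symm := ⟨fun _ _ h => ⟨h.1.symm, h.2.symm⟩⟩
  loopless := ⟨fun _ h => h.1 rfl⟩

instance (n : ℕ) (f : ℕ → ℕ) : DecidableRel (FG n f).Adj := fun u v =>
  inferInstanceAs (Decidable (u ≠ v ∧ (f u = v ∨ f v = u)))

/-- `f` maps `0 → 1 → 2 → 0` and decreases every number which is at least three. -/
structure Good (f : ℕ → ℕ) : Prop where
  h0 : f 0 = 1
  h1 : f 1 = 2
  h2 : f 2 = 0
  hlt : ∀ k, 3 ≤ k → f k < k

theorem Good.lt {f : ℕ → ℕ} (hf : Good f) {n k : ℕ} (hn : 3 ≤ n) (hk : k < n) : f k < n := by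
  rcases Nat.lt_or_ge k 3 with h | h
  · have h0 := hf.h0; have h1 := hf.h1; have h2 := hf.h2
    interval_cases k <;> omega
  · have := hf.hlt k h
    omega

theorem FG_adj {n : ℕ} {f : ℕ → ℕ} {u v : Fin n} :
    (FG n f).Adj u v ↔ (u : ℕ) ≠ v ∧ (f u = v ∨ f v = u) := by
  unfold FG
  simp only [ne_eq, Fin.ext_iff]

theorem FG_connected {n : ℕ} {f : ℕ → ℕ} (hf : Good f) (hn : 3 ≤ n) : (FG n f).Connected := by
  have h : ∀ k : ℕ, ∀ hk : k < n, (FG n f).Reachable ⟨0, by omega⟩ ⟨k, hk⟩ := by
    intro k
    induction k using Nat.strong_induction_on with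
    | _ k ih =>
      intro hk
      have h0 := hf.h0; have h1 := hf.h1; have h2 := hf.h2
      by_cases hk0 : k = 0
      · subst hk0
        exact SimpleGraph.Reachable.refl _
      · by_cases hk1 : k = 1
        · subst hk1
          apply SimpleGraph.Adj.reachable
          rw [FG_adj]
          exact ⟨by simp, Or.inl h0⟩
        · by_cases hk2 : k = 2
          · subst hk2
            apply SimpleGraph.Adj.reachable
            rw [FG_adj]
            exact ⟨by simp, Or.inr h2⟩
          · have h3 := hf.hlt k (by omega)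
            refine (ih (f k) h3 (by omega)).trans ?_
            apply SimpleGraph.Adj.reachable
            rw [FG_adj]
            exact ⟨by simp only; omega, Or.inr rfl⟩
  have : Nonempty (Fin n) := ⟨⟨0, by omega⟩⟩
  refine SimpleGraph.Connected.mk ?_
  intro u v
  exact (h u u.2).symm.trans (h v v.2)

theorem Good.no_two {f : ℕ → ℕ} (hf : Good f) {k : ℕ} (h : f (f k) = k) : False := by
  have h0 := hf.h0; have h1 := hf.h1; have h2 := hf.h2
  rcases Nat.lt_or_ge k 3 with hk | hk
  · interval_cases k
    · rw [h0, h1] at h; omega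
    · rw [h1, h2] at h; omega
    · rw [h2, h0] at h; omega
  · have h3 := hf.hlt k hk
    rcases Nat.lt_or_ge (f k) 3 with h4 | h4
    · generalize f k = m at *
      interval_cases m <;> omega
    · have := hf.hlt _ h4
      omega

theorem Good.ne {f : ℕ → ℕ} (hf : Good f) (k : ℕ) : f k ≠ k := by
  intro h
  exact hf.no_two (k := k) (by rw [h, h])

theorem FG_edges {n : ℕ} {f : ℕ → ℕ} (hf : Good f) (hn : 3 ≤ n) :
    #(FG n f).edgeFinset = Fintype.card (Fin n) := by
  let g : Fin n → Fin n := fun v => ⟨f v, hf.lt hn v.2⟩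
  have hinj : Function.Injective (fun v : Fin n => s(v, g v)) := by
    intro u v h
    simp only [Sym2.eq_iff] at h
    rcases h with h | ⟨h1, h2⟩
    · exact h.1
    · exfalso
      have h3 : (u : ℕ) = f v := congrArg Fin.val h1
      have h4 : f u = (v : ℕ) := congrArg Fin.val h2
      exact hf.no_two (k := (v : ℕ)) (by rw [← h3, h4])
  have h : (FG n f).edgeFinset = univ.image (fun v : Fin n => s(v, g v)) := by
    ext e
    induction e using Sym2.ind with
    | _ a b =>
      rw [SimpleGraph.mem_edgeFinset, SimpleGraph.mem_edgeSet, FG_adj]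
      simp only [mem_image, mem_univ, true_and, Sym2.eq_iff, g]
      constructor
      · rintro ⟨_, h | h⟩
        · exact ⟨a, Or.inl ⟨rfl, Fin.ext h⟩⟩
        · exact ⟨b, Or.inr ⟨rfl, Fin.ext h⟩⟩
      · rintro ⟨c, ⟨rfl, h⟩ | ⟨rfl, h⟩⟩
        · have h' : f c = (b : ℕ) := congrArg Fin.val h
          exact ⟨fun h2 => hf.ne c (by omega), Or.inl h'⟩
        · have h' : f c = (a : ℕ) := congrArg Fin.val h
          exact ⟨fun h2 => hf.ne c (by omega), Or.inr h'⟩
  rw [h, card_image_of_injective _ hinj, card_univ]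

theorem FG_degree {n : ℕ} {f : ℕ → ℕ} (v : Fin n) (s : Finset ℕ)
    (hs : ∀ u, u ∈ s ↔ u < n ∧ u ≠ v ∧ (f u = v ∨ f v = u)) : (FG n f).degree v = #s := by
  rw [← SimpleGraph.card_neighborFinset_eq_degree, ← card_map Fin.valEmbedding]
  congr 1
  ext u
  rw [hs]
  simp only [mem_map, SimpleGraph.mem_neighborFinset, FG_adj, Fin.valEmbedding_apply]
  constructor
  · rintro ⟨x, ⟨h1, h2⟩, rfl⟩
    exact ⟨x.2, h1.symm, h2.symm⟩
  · rintro ⟨h1, h2, h3⟩
    exact ⟨⟨u, h1⟩, ⟨h2.symm, h3.symm⟩, rfl⟩

theorem FG_degree_one {n : ℕ} {f : ℕ → ℕ} (v : Fin n) (a : ℕ)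
    (hs : ∀ u, u = a ↔ u < n ∧ u ≠ v ∧ (f u = v ∨ f v = u)) : (FG n f).degree v = 1 := by
  rw [FG_degree v {a} (by intro u; rw [mem_singleton, hs])]
  rfl

theorem FG_degree_two {n : ℕ} {f : ℕ → ℕ} (v : Fin n) (a b : ℕ) (hab : a < b)
    (hs : ∀ u, (u = a ∨ u = b) ↔ u < n ∧ u ≠ v ∧ (f u = v ∨ f v = u)) :
    (FG n f).degree v = 2 := by
  rw [FG_degree v {a, b} (by intro u; rw [mem_insert, mem_singleton, hs])]
  exact card_pair hab.ne

theorem FG_degree_three {n : ℕ} {f : ℕ → ℕ} (v : Fin n) (a b c : ℕ) (hab : a < b) (hbc : b < c)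
    (hs : ∀ u, (u = a ∨ u = b ∨ u = c) ↔ u < n ∧ u ≠ v ∧ (f u = v ∨ f v = u)) :
    (FG n f).degree v = 3 := by
  rw [FG_degree v {a, b, c} (by intro u; rw [mem_insert, mem_insert, mem_singleton, hs])]
  rw [card_eq_three]
  exact ⟨a, b, c, hab.ne, (hab.trans hbc).ne, hbc.ne, rfl⟩

theorem FG_degree_four {n : ℕ} {f : ℕ → ℕ} (v : Fin n) (a b c d : ℕ) (hab : a < b) (hbc : b < c)
    (hcd : c < d)
    (hs : ∀ u, (u = a ∨ u = b ∨ u = c ∨ u = d) ↔ u < n ∧ u ≠ v ∧ (f u = v ∨ f v = u)) :
    (FG n f).degree v = 4 := by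
  rw [FG_degree v {a, b, c, d}
    (by intro u; rw [mem_insert, mem_insert, mem_insert, mem_singleton, hs])]
  rw [card_insert_of_notMem (by
    simp only [mem_insert, mem_singleton, not_or]
    exact ⟨hab.ne, (hab.trans hbc).ne, ((hab.trans hbc).trans hcd).ne⟩)]
  have : #({b, c, d} : Finset ℕ) = 3 := card_eq_three.2 ⟨b, c, d, hbc.ne, (hbc.trans hcd).ne,
    hcd.ne, rfl⟩
  omega

/-- The function for `n ≡ 0 mod 3`. -/
def fA (k : ℕ) : ℕ :=
  if k = 0 then 1 else if k = 1 then 2 else if k = 2 then 0 else if k < 9 then (k - 3) / 2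
  else k / 3

/-- The function for `n ≡ 1 mod 3`. -/
def fB (k : ℕ) : ℕ :=
  if k = 0 then 1 else if k = 1 then 2 else if k = 2 then 0 else if k < 5 then 1
  else if k < 7 then 2 else 3 + (k - 7) / 3

/-- The function for `n ≡ 2 mod 3`. -/
def fC (k : ℕ) : ℕ :=
  if k = 0 then 1 else if k = 1 then 2 else if k = 2 then 0 else if k = 3 then 0
  else if k < 6 then 1 else if k < 8 then 2 else (k + 1) / 3

theorem goodA : Good fA := by
  refine ⟨rfl, rfl, rfl, ?_⟩
  intro k hk
  unfold fA
  split_ifs <;> omega

theorem goodB : Good fB := by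
  refine ⟨rfl, rfl, rfl, ?_⟩
  intro k hk
  unfold fB
  split_ifs <;> omega

theorem goodC : Good fC := by
  refine ⟨rfl, rfl, rfl, ?_⟩
  intro k hk
  unfold fC
  split_ifs <;> omega

theorem degA {n : ℕ} (hn : 9 ≤ n) (h3 : n % 3 = 0) (v : Fin n) :
    (FG n fA).degree v = 1 ∨ (FG n fA).degree v = 4 := by
  obtain ⟨v, hv⟩ := v
  by_cases h0 : v = 0
  · right
    apply FG_degree_four _ 1 2 3 4 (by omega) (by omega) (by omega)
    intro u
    subst h0
    unfold fA
    simp only
    split_ifs <;> first | contradiction | omega | (simp only [false_or, or_false]; omega)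
  by_cases h1 : v = 1
  · right
    apply FG_degree_four _ 0 2 5 6 (by omega) (by omega) (by omega)
    intro u
    subst h1
    unfold fA
    simp only
    split_ifs <;> first | contradiction | omega | (simp only [false_or, or_false]; omega)
  by_cases h2 : v = 2
  · right
    apply FG_degree_four _ 0 1 7 8 (by omega) (by omega) (by omega)
    intro u
    subst h2
    unfold fA
    simp only
    split_ifs <;> first | contradiction | omega | (simp only [false_or, or_false]; omega)
  by_cases hlt : 3 * v < n
  · right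
    apply FG_degree_four _ (fA v) (3 * v) (3 * v + 1) (3 * v + 2)
      (by unfold fA; split_ifs <;> omega) (by omega) (by omega)
    intro u
    unfold fA
    simp only
    split_ifs <;> first | contradiction | omega | (simp only [false_or, or_false]; omega)
  · left
    apply FG_degree_one _ (fA v)
    intro u
    unfold fA
    simp only
    split_ifs <;> first | contradiction | omega | (simp only [false_or, or_false]; omega)

theorem degB {n : ℕ} (hn : 7 ≤ n) (h3 : n % 3 = 1) (v : Fin n) :
    ((v : ℕ) = 0 → (FG n fB).degree v = 2) ∧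
    ((v : ℕ) = 1 ∨ (v : ℕ) = 2 → (FG n fB).degree v = 4) ∧
    ((v : ℕ) ≠ 0 → ((FG n fB).degree v = 1 ∨ (FG n fB).degree v = 4)) := by
  obtain ⟨v, hv⟩ := v
  simp only
  by_cases h0 : v = 0
  · refine ⟨fun _ => ?_, fun h => by omega, fun h => by omega⟩
    apply FG_degree_two _ 1 2 (by omega)
    intro u
    subst h0
    unfold fB
    simp only
    split_ifs <;> first | contradiction | omega | (simp only [false_or, or_false]; omega)
  by_cases h1 : v = 1
  · have : (FG n fB).degree ⟨v, hv⟩ = 4 := by
      apply FG_degree_four _ 0 2 3 4 (by omega) (by omega) (by omega)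
      intro u
      subst h1
      unfold fB
      simp only
      split_ifs <;> first | contradiction | omega | (simp only [false_or, or_false]; omega)
    exact ⟨fun h => by omega, fun _ => this, fun _ => Or.inr this⟩
  by_cases h2 : v = 2
  · have : (FG n fB).degree ⟨v, hv⟩ = 4 := by
      apply FG_degree_four _ 0 1 5 6 (by omega) (by omega) (by omega)
      intro u
      subst h2
      unfold fB
      simp only
      split_ifs <;> first | contradiction | omega | (simp only [false_or, or_false]; omega)
    exact ⟨fun h => by omega, fun _ => this, fun _ => Or.inr this⟩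
  refine ⟨fun h => by omega, fun h => by omega, fun _ => ?_⟩
  by_cases hlt : 3 * v < n + 1
  · right
    apply FG_degree_four _ (fB v) (3 * v - 2) (3 * v - 1) (3 * v)
      (by unfold fB; split_ifs <;> omega) (by omega) (by omega)
    intro u
    unfold fB
    simp only
    split_ifs <;> first | contradiction | omega | (simp only [false_or, or_false]; omega)
  · left
    apply FG_degree_one _ (fB v)
    intro u
    unfold fB
    simp only
    split_ifs <;> first | contradiction | omega | (simp only [false_or, or_false]; omega)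

theorem degC {n : ℕ} (hn : 11 ≤ n) (h3 : n % 3 = 2) (v : Fin n) :
    ((v : ℕ) = 0 → (FG n fC).degree v = 3) ∧
    ((v : ℕ) = 1 ∨ (v : ℕ) = 2 ∨ (v : ℕ) = 3 → (FG n fC).degree v = 4) ∧
    ((v : ℕ) ≠ 0 → ((FG n fC).degree v = 1 ∨ (FG n fC).degree v = 4)) := by
  obtain ⟨v, hv⟩ := v
  simp only
  by_cases h0 : v = 0
  · refine ⟨fun _ => ?_, fun h => by omega, fun h => by omega⟩
    apply FG_degree_three _ 1 2 3 (by omega) (by omega)
    intro u
    subst h0
    unfold fC
    simp only
    split_ifs <;> first | contradiction | omega | (simp only [false_or, or_false]; omega)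
  by_cases h1 : v = 1
  · have : (FG n fC).degree ⟨v, hv⟩ = 4 := by
      apply FG_degree_four _ 0 2 4 5 (by omega) (by omega) (by omega)
      intro u
      subst h1
      unfold fC
      simp only
      split_ifs <;> first | contradiction | omega | (simp only [false_or, or_false]; omega)
    exact ⟨fun h => by omega, fun _ => this, fun _ => Or.inr this⟩
  by_cases h2 : v = 2
  · have : (FG n fC).degree ⟨v, hv⟩ = 4 := by
      apply FG_degree_four _ 0 1 6 7 (by omega) (by omega) (by omega)
      intro u
      subst h2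
      unfold fC
      simp only
      split_ifs <;> first | contradiction | omega | (simp only [false_or, or_false]; omega)
    exact ⟨fun h => by omega, fun _ => this, fun _ => Or.inr this⟩
  by_cases hlt : 3 * v < n + 1
  · have : (FG n fC).degree ⟨v, hv⟩ = 4 := by
      apply FG_degree_four _ (fC v) (3 * v - 1) (3 * v) (3 * v + 1)
        (by unfold fC; split_ifs <;> omega) (by omega) (by omega)
      intro u
      unfold fC
      simp only
      split_ifs <;> first | contradiction | omega | (simp only [false_or, or_false]; omega)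
    exact ⟨fun h => by omega, fun _ => this, fun _ => Or.inr this⟩
  · refine ⟨fun h => by omega, fun h => by omega, fun _ => ?_⟩
    left
    apply FG_degree_one _ (fC v)
    intro u
    unfold fC
    simp only
    split_ifs <;> first | contradiction | omega | (simp only [false_or, or_false]; omega)

/-- The function for the exceptional small cases: a triangle with leaves. -/
def fD (g : ℕ → ℕ) (k : ℕ) : ℕ :=
  if k = 0 then 1 else if k = 1 then 2 else if k = 2 then 0 else g k % 3

theorem goodD (g : ℕ → ℕ) : Good (fD g) := by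
  refine ⟨rfl, rfl, rfl, ?_⟩
  intro k hk
  unfold fD
  split_ifs <;> omega

theorem exists_extremal {n : ℕ} (hn : 3 ≤ n) :
    ∃ f : ℕ → ℕ, Good f ∧ (∀ v, (FG n f).degree v ≤ 4) ∧ Extremal (FG n f) n := by
  unfold Extremal
  split_ifs with e3 e4 e5 e6 e8 m0 m1
  · subst e3
    exact ⟨fD (fun _ => 0), goodD _, by decide, 0, 1, 2, by decide⟩
  · subst e4
    exact ⟨fD (fun _ => 0), goodD _, by decide, 0, 1, 2, by decide⟩
  · subst e5
    exact ⟨fD (fun _ => 0), goodD _, by decide, 0, 1, 2, by decide⟩
  · subst e6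
    exact ⟨fD (fun k => if k = 3 then 1 else 0), goodD _, by decide, 0, 1, 2, by decide⟩
  · subst e8
    exact ⟨fD (fun k => if k = 3 then 0 else if k < 6 then 1 else 2), goodD _, by decide,
      0, 1, 2, by decide⟩
  · have h := degA (n := n) (by omega) m0
    refine ⟨fA, goodA, fun v => ?_, h⟩
    have := h v
    omega
  · have h := degB (n := n) (by omega) m1
    refine ⟨fB, goodB, fun v => ?_, ⟨0, by omega⟩, (h _).1 rfl, fun y hy => ?_, fun v hv => ?_⟩
    · rcases Nat.eq_zero_or_pos (v : ℕ) with h0 | h0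
      · have := (h v).1 h0
        omega
      · have := (h v).2.2 (by omega)
        omega
    · apply (h y).2.1
      rw [FG_adj] at hy
      simp only at hy
      obtain ⟨hy1, hy2⟩ := hy
      unfold fB at hy2
      split_ifs at hy2 <;> first | contradiction | omega | (simp only [false_or, or_false] at hy2; omega)
    · apply (h v).2.2
      intro h0
      exact hv (Fin.ext h0)
  · have h := degC (n := n) (by omega) (by omega)
    refine ⟨fC, goodC, fun v => ?_, ⟨0, by omega⟩, (h _).1 rfl, fun y hy => ?_, fun v hv => ?_⟩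
    · rcases Nat.eq_zero_or_pos (v : ℕ) with h0 | h0
      · have := (h v).1 h0
        omega
      · have := (h v).2.2 (by omega)
        omega
    · apply (h y).2.1
      rw [FG_adj] at hy
      simp only at hy
      obtain ⟨hy1, hy2⟩ := hy
      unfold fC at hy2
      split_ifs at hy2 <;> first | contradiction | omega | (simp only [false_or, or_false] at hy2; omega)
    · apply (h v).2.2
      intro h0
      exact hv (Fin.ext h0)

/-- **Maximum Euler Sombor index of chemical unicyclic graphs.**  For every `n ≥ 3`, every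
chemical unicyclic graph with `n` vertices has Euler Sombor index at most `M n`, equality holds
exactly for the graphs described by `Extremal`, and `M n` is attained. -/
theorem result : ∀ n : ℕ, 3 ≤ n →
    (∀ (V : Type) [Fintype V] [DecidableEq V] (G : SimpleGraph V) [DecidableRel G.Adj],
      Fintype.card V = n → ChemUnicyclic G → EUS G ≤ M n ∧ (EUS G = M n ↔ Extremal G n)) ∧
    (∃ (G : SimpleGraph (Fin n)) (_ : DecidableRel G.Adj), ChemUnicyclic G ∧ EUS G = M n) := by
  intro n hn
  constructor
  · intro V _ _ G _ hV hG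
    subst hV
    exact upper hG hn
  · obtain ⟨f, hf, hd, hE⟩ := exists_extremal hn
    have h : ChemUnicyclic (FG n f) := ⟨FG_connected hf hn, FG_edges hf hn, hd⟩
    refine ⟨FG n f, inferInstance, h, ?_⟩
    have hu := (upper h (by rw [Fintype.card_fin]; exact hn)).2
    rw [Fintype.card_fin] at hu
    exact hu.2 hE

end Pool.Agent.Results.MP_b3e27a_co.EulerSombor
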